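import Pool.Agent.R203.PP.Push
import Pool.Agent.Y489.GE.Fin2

/-!
# Lipschitz point pushing: the assembly

The proofs are those of `Pool.Agent.Y489.GE.Fin` and `Fin2` with the group action replaced by
Lipschitz point pushing.
-/

set_option autoImplicit false

open Set Topology unitInterval Filter MeasureTheory

noncomputable section

namespace Pool.Agent.R203.PP

open Pool.Agent.Y489.GE

/-- contraction of maps, or a short closed geodesic -/
theorem core (h_MG : S_MG) (h_CG : S_CG) (h_BK : S_BK) (h_OM : S_OM)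
    (h_REC : S_REC) (h_SET : S_SET) (X : Type) [MetricSpace X] [CompactSpace X] (p : X)
    (r lam : ℝ) (hr : 0 < r) (hX : GeodSpace X) (hU : UniqGeod X r) (hP : Push X p lam)
    (q : ℕ) (hq : 1 ≤ q) (K : Type) [MetricSpace K] [CompactSpace K] (hK : CovDim K q)
    (f : K → X) (hf : Continuous f) (A : Set K) (hA : ∀ k ∈ A, f k = p)
    (hno : ¬ ClosedGeod X (2 * (∑ i ∈ Finset.range q, lam ^ i) * Metric.diam (univ : Set X))) :
    ∃ H : K → ℝ → X, Continuous (fun z : K × ℝ => H z.1 z.2) ∧ (∀ k, H k 0 = p) ∧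
      (∀ k, H k 1 = f k) ∧ ∀ k ∈ A, ∀ s, H k s = p := by
  classical
  by_cases hsub : Subsingleton X
  · exact ⟨fun _ _ => p, continuous_const, fun _ => rfl, fun k => Subsingleton.elim _ _,
      fun _ _ _ => rfl⟩
  have hnt : Nontrivial X := not_subsingleton_iff_nontrivial.1 hsub
  obtain ⟨x₀, y₀, hxy⟩ := exists_pair_ne X
  have hd0 : 0 < dist x₀ y₀ := dist_pos.2 hxy
  have hlam : 1 ≤ lam := hP.one_le
  have hl0 : 0 ≤ lam := by linarith
  have hbd : Bornology.IsBounded (univ : Set X) := isCompact_univ.isBounded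
  set D := Metric.diam (univ : Set X) with hD
  have hdD : ∀ x y : X, dist x y ≤ D := fun x y =>
    Metric.dist_le_diam_of_mem hbd (mem_univ x) (mem_univ y)
  have hDpos : 0 < D := lt_of_lt_of_le hd0 (hdD _ _)
  set S := ∑ i ∈ Finset.range q, lam ^ i with hS
  have hS1 : 1 ≤ S := by
    have := Finset.single_le_sum (f := fun i => lam ^ i) (s := Finset.range q)
      (fun i _ => pow_nonneg hl0 i) (Finset.mem_range.2 hq)
    simpa using this
  obtain ⟨m, hm⟩ := h_MG X r hr hX hU
  have hr2 : 0 < r / 2 := by linarith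
  obtain ⟨N, hN⟩ := exists_nat_gt (lam * (2 * S * D + 1) / (r / 2))
  have hL0 : 0 < 2 * S * D + 1 := by positivity
  have hN0 : (0 : ℝ) < N := lt_trans (by positivity) hN
  have hN' : N ≠ 0 := by
    rintro rfl
    simp at hN0
  have : NeZero N := ⟨hN'⟩
  have hNr : lam * ((2 * S * D + 1) / N) < r / 2 := by
    rw [div_lt_iff₀ hr2] at hN
    rw [← mul_div_assoc, div_lt_iff₀ hN0]
    linarith
  have hlamN : ∀ a : ℝ, 0 < a → a ≤ 2 * S * D + 1 → lam * (a / N) ≤ r / 2 := by
    intro a _ ha
    refine le_trans (mul_le_mul_of_nonneg_left ?_ hl0) hNr.le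
    exact div_le_div_of_nonneg_right ha hN0.le
  have hN1 : ∀ a : ℝ, 0 < a → a ≤ 2 * S * D + 1 → a / N ≤ r / 2 := by
    intro a h0 ha
    refine le_trans ?_ (hlamN a h0 ha)
    have : 0 ≤ a / N := by positivity
    nlinarith
  -- minimal geodesics from `p`
  have hpath : ∀ y : X, ∃ c ∈ Pa p D, c D = y := by
    intro y
    obtain ⟨c, h0, h1, h2⟩ := hX p y
    have hcl : ∀ s : ℝ, max 0 (min (s / D) 1) ∈ Icc (0 : ℝ) 1 := fun s =>
      ⟨le_max_left _ _, max_le zero_le_one (min_le_right _ _)⟩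
    refine ⟨fun s => c (max 0 (min (s / D) 1)), ⟨?_, ?_, ?_⟩, ?_⟩
    · intro s t
      rw [h2 _ (hcl s) _ (hcl t)]
      have h3 : |max 0 (min (s / D) 1) - max 0 (min (t / D) 1)| ≤ |s / D - t / D| := by
        refine (abs_max_sub_max_le_max _ _ _ _).trans ?_
        rw [sub_self, abs_zero]
        refine max_le (abs_nonneg _) ?_
        refine (abs_min_sub_min_le_max _ _ _ _).trans ?_
        rw [sub_self, abs_zero]
        exact max_le le_rfl (abs_nonneg _)
      calc |max 0 (min (s / D) 1) - max 0 (min (t / D) 1)| * dist p y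
          ≤ |s / D - t / D| * D := mul_le_mul h3 (hdD _ _) dist_nonneg (abs_nonneg _)
        _ = |s - t| := by
          rw [← sub_div, abs_div, abs_of_pos hDpos, div_mul_cancel₀ _ hDpos.ne']
    · intro t ht
      have : max 0 (min (t / D) 1) = 0 := by
        refine max_eq_left ((min_le_left _ _).trans ?_)
        exact div_nonpos_of_nonpos_of_nonneg ht hDpos.le
      simp only [this, h0]
    · intro t ht
      have h3 : 1 ≤ t / D := by rwa [le_div_iff₀ hDpos, one_mul]
      simp only [min_eq_right h3, div_self hDpos.ne', min_self]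
    · simp only [div_self hDpos.ne', min_self, max_eq_right zero_le_one, h1]
  -- small parameters
  by_cases hbad : ∀ ε : ℝ, 0 < ε → ε ≤ r / 2 → 2 * S * ε ≤ 1 →
      ∃ x ∈ Pol X N (2 * S * (D + ε) / N), (D / (N * N)) ^ 2 ≤ En N x ∧
        En N (ph m N (1 / 2) x) = En N x
  · exfalso
    apply hno
    set ε₁ := min (r / 2) (1 / (2 * S)) with hε₁
    have hS2 : 0 < 2 * S := by linarith
    have hε₁0 : 0 < ε₁ := lt_min hr2 (by positivity)
    have hu : Tendsto (fun n : ℕ => 2 * S * (D + ε₁ * (1 / ((n : ℝ) + 1))) / N) atTop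
        (𝓝 (2 * S * D / N)) := by
      have h1 : Tendsto (fun n : ℕ => 2 * S * (D + ε₁ * (1 / ((n : ℝ) + 1))) / N) atTop
          (𝓝 (2 * S * (D + ε₁ * 0) / N)) :=
        (tendsto_const_nhds.mul (tendsto_const_nhds.add (tendsto_const_nhds.mul
          tendsto_one_div_add_atTop_nhds_zero_nat))).div_const _
      simpa using h1
    have hlt : 2 * S * D / N < r / 2 := by
      refine lt_of_lt_of_le ?_ (hN1 (2 * S * D + 1) hL0 le_rfl)
      exact div_lt_div_of_pos_right (by linarith) hN0
    obtain ⟨x, hx1, hx2, hx3⟩ := limit_polygon hm N (2 * S * D / N) ((D / (N * N)) ^ 2) hlt _ hu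
      (by
        intro n
        have hn1 : (0 : ℝ) < 1 / ((n : ℝ) + 1) := by positivity
        have hn2 : 1 / ((n : ℝ) + 1) ≤ 1 := by
          rw [div_le_one (by positivity)]
          have : (0 : ℝ) ≤ n := Nat.cast_nonneg n
          linarith
        have hle : ε₁ * (1 / ((n : ℝ) + 1)) ≤ ε₁ := by nlinarith
        refine hbad _ (by positivity) (hle.trans (min_le_left _ _)) ?_
        calc 2 * S * (ε₁ * (1 / ((n : ℝ) + 1))) ≤ 2 * S * (1 / (2 * S)) :=
              mul_le_mul_of_nonneg_left (hle.trans (min_le_right _ _)) hS2.le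
          _ = 1 := mul_one_div_cancel hS2.ne')
    have hpos : 0 < En N x := lt_of_lt_of_le (by positivity) hx2
    have := h_CG X (r / 2) m hm N (2 * S * D / N) hlt.le x hx1 hx3 hpos
    rwa [mul_div_cancel₀ _ hN0.ne'] at this
  · push Not at hbad
    obtain ⟨ε, hε0, hεr, hεS, hgood⟩ := hbad
    have hb0 : 0 < D + ε := by linarith
    -- contraction of the loops
    have hOm : ∀ j, j < q → OmC p (al lam (D + ε) j + (D + ε))
        (lam * (al lam (D + ε) j + (D + ε))) := by
      intro j hj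
      obtain ⟨ha1, ha2⟩ := al_bounds hlam hb0.le hj
      rw [← hS] at ha2
      set a := al lam (D + ε) j + (D + ε) with ha
      have ha0 : 0 < a := by linarith
      have haL : a ≤ 2 * S * D + 1 := by nlinarith
      have haN : 0 < a / N := by positivity
      have hPol : PolC X N (a / N) := by
        refine h_BK X (r / 2) m hm N (a / N) haN (hN1 a ha0 haL) ?_
        intro x hx hxe
        refine hgood x ?_ ?_
        · intro i
          refine (hx i).trans (div_le_div_of_nonneg_right ?_ hN0.le)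
          linarith
        · refine le_trans ?_ hxe
          have h4 : D / (N * N) ≤ a / N / (2 * N) := by
            rw [div_div, div_le_div_iff₀ (by positivity) (by positivity)]
            have h5 : 2 * D ≤ a := by linarith
            have h6 : (0 : ℝ) ≤ (N : ℝ) * N := by positivity
            nlinarith
          exact pow_le_pow_left₀ (by positivity) h4 2
      exact h_OM X (r / 2) m hm p lam a N hlam ha0 (hlamN a ha0 haL)
        (tr_push X p lam hP hl0 N (a / N) hPol)
    obtain ⟨t, ρ, hdata⟩ := h_SET X K q hK (r / 2) m hm p D hDpos.le hpath ε hε0 hεr f hf A hA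
    obtain ⟨Γ, hΓ1, hΓ2, hΓ3⟩ := h_REC X K p lam (D + ε) q hlam hb0.le hOm f A t ρ hdata
    refine ⟨fun k s => Γ k (s * al lam (D + ε) q), ?_, ?_, ?_, ?_⟩
    · exact eval_cont (F := fun z : K × ℝ => Γ z.1) (hΓ1.comp continuous_fst)
        (fun z => (hΓ2 z.1).1.1) (continuous_snd.mul continuous_const)
    · intro k
      dsimp only
      rw [zero_mul]
      exact (hΓ2 k).1.2.1 0 le_rfl
    · intro k
      dsimp only
      rw [one_mul]
      exact (hΓ2 k).2
    · intro k hk s
      dsimp only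
      rw [hΓ3 k hk]

/-- no closed geodesics of length at most `L`: contraction of the loops of length `a ≤ L` -/
theorem omC_of_no (h_CG : S_CG) (h_BK : S_BK) (h_OM : S_OM)
    {X : Type} [MetricSpace X] [CompactSpace X] {p : X}
    {r lam : ℝ} {m : X → X → ℝ → X} (hm : GMap X r m) (hr : 0 < r) (hlam : 1 ≤ lam)
    (hP : Push X p lam)
    {L : ℝ} (hno : ¬ ClosedGeod X L) {a : ℝ} (ha : 0 < a) (haL : a ≤ L) :
    OmC p a (lam * a) := by
  have hl0 : 0 < lam := by linarith
  obtain ⟨N, hN⟩ := exists_nat_gt (lam * a / r)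
  have hN0 : (0 : ℝ) < N := lt_trans (by positivity) hN
  have hN' : N ≠ 0 := by
    rintro rfl
    simp at hN0
  have : NeZero N := ⟨hN'⟩
  have hNr : lam * (a / N) ≤ r := by
    rw [div_lt_iff₀ hr] at hN
    rw [← mul_div_assoc, div_le_iff₀ hN0]
    linarith
  have haN : 0 < a / N := by positivity
  have hN1 : a / N ≤ r := by
    refine le_trans ?_ hNr
    nlinarith
  have hPol : PolC X N (a / N) := by
    refine h_BK X r m hm N (a / N) haN hN1 ?_
    intro x hx hxe he
    apply hno
    have hpos : 0 < En N x := lt_of_lt_of_le (by positivity) hxe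
    have := h_CG X r m hm N (a / N) hN1 x hx he hpos
    rw [mul_div_cancel₀ _ hN0.ne'] at this
    exact this.mono haL
  exact h_OM X r m hm p lam a N hlam ha hNr (tr_push X p lam hP hl0.le N (a / N) hPol)

/-- no short closed geodesics: local contractibility -/
theorem lc_of_no (h_MG : S_MG) (h_CG : S_CG) (h_BK : S_BK) (h_OM : S_OM)
    (h_REC : S_REC) (h_SETL : S_SETL) (X : Type) [MetricSpace X] [CompactSpace X]
    (r lam : ℝ) (hr : 0 < r) (hX : GeodSpace X) (hU : UniqGeod X r) (hlam : 1 ≤ lam)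
    (hP : ∀ p : X, Push X p lam)
    (q : ℕ) (hq : 1 ≤ q) {L : ℝ} (hno : ¬ ClosedGeod X L) :
    LC X q (L / (4 * sg lam q)) (4 * sg lam (q + 1)) := by
  intro p K _ _ hK f hf s hs0 hsL hfs
  have hS := sg_ge_one hlam hq
  obtain ⟨m, hm⟩ := h_MG X r hr hX hU
  have hr2 : 0 < r / 2 := by linarith
  set ε := min s (r / 2) with hε
  have hε0 : 0 < ε := lt_min hs0 hr2
  have hεs : ε ≤ s := min_le_left _ _
  have hb0 : 0 < s + ε := by linarith
  have hsL' : 4 * sg lam q * s ≤ L := by
    rw [le_div_iff₀ (by positivity)] at hsL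
    linarith
  have hOm : ∀ j, j < q → OmC p (al lam (s + ε) j + (s + ε))
      (lam * (al lam (s + ε) j + (s + ε))) := by
    intro j hj
    obtain ⟨ha1, ha2⟩ := al_bounds hlam hb0.le hj
    change _ ≤ 2 * (s + ε) * sg lam q at ha2
    refine omC_of_no h_CG h_BK h_OM hm hr2 hlam (hP p) hno (by linarith) ?_
    nlinarith
  obtain ⟨t, ρ, hdata⟩ := h_SETL X K q hK (r / 2) m hm p s hs0.le ε hε0 (min_le_right _ _) f hf
    (fun k => exists_path hX p (f k) hs0 (hfs k)) ∅ (fun k hk => hk.elim)
  obtain ⟨Γ, hΓ1, hΓ2, _⟩ := h_REC X K p lam (s + ε) q hlam hb0.le hOm f ∅ t ρ hdata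
  have hal0 := al_nonneg hlam hb0.le q
  refine ⟨fun k u => Γ k (u * al lam (s + ε) q), ?_, ?_, ?_, ?_⟩
  · exact eval_cont (F := fun z : K × ℝ => Γ z.1) (hΓ1.comp continuous_fst)
      (fun z => (hΓ2 z.1).1.1) (continuous_snd.mul continuous_const)
  · intro k
    dsimp only
    rw [zero_mul]
    exact (hΓ2 k).1.2.1 0 le_rfl
  · intro k
    dsimp only
    rw [one_mul]
    exact (hΓ2 k).2
  · intro k u hu
    dsimp only
    have h1 := (hΓ2 k).1.1 0 (u * al lam (s + ε) q)
    rw [(hΓ2 k).1.2.1 0 le_rfl, zero_sub, abs_neg,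
      abs_of_nonneg (mul_nonneg hu.1 hal0)] at h1
    obtain ⟨_, ha2⟩ := al_bounds hlam hb0.le (Nat.lt_succ_self q)
    change _ ≤ 2 * (s + ε) * sg lam (q + 1) at ha2
    have hS1 := sg_ge_one hlam (Nat.succ_le_succ (Nat.zero_le q))
    have h2 : u * al lam (s + ε) q ≤ al lam (s + ε) q := by
      nlinarith [hu.2]
    have h3 : 2 * (s + ε) * sg lam (q + 1) ≤ 4 * sg lam (q + 1) * s := by
      nlinarith
    linarith

/-- the main theorem, conditional on the parts -/
theorem main (h_MG : S_MG) (h_CG : S_CG) (h_BK : S_BK) (h_OM : S_OM)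
    (h_REC : S_REC) (h_SET : S_SET) (h_KUHN : S_KUHN) (X : Type) [MetricSpace X]
    [CompactSpace X] (p : X) (r lam : ℝ) (hr : 0 < r) (hX : GeodSpace X)
    (hU : UniqGeod X r) (hP : Push X p lam) :
    (∀ q : ℕ, 1 ≤ q → Nontrivial (HomotopyGroup (Fin q) X p) →
      ClosedGeod X (2 * (∑ i ∈ Finset.range q, lam ^ i) * Metric.diam (univ : Set X))) ∧
    ∀ n : ℕ, 1 ≤ n → CovDim X n → ¬ ContractibleSpace X →
      ClosedGeod X (2 * (∑ i ∈ Finset.range n, lam ^ i) * Metric.diam (univ : Set X)) := by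
  constructor
  · intro q hq hπ
    by_contra hno
    have := homotopyGroup_trivial X p q fun f hf hA =>
      core h_MG h_CG h_BK h_OM h_REC h_SET X p r lam hr hX hU hP q hq _ (h_KUHN q)
        f hf _ hA hno
    exact not_subsingleton _ this
  · intro n hn hC hcon
    by_contra hno
    apply hcon
    obtain ⟨H, h1, h2, h3, _⟩ := core h_MG h_CG h_BK h_OM h_REC h_SET X p r lam hr hX hU
      hP n hn X hC (fun x => x) continuous_id ∅ (fun k hk => hk.elim) hno
    exact contractible_of X p ⟨H, h1, h2, h3⟩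

/-- the main theorem of the second part, conditional on the parts -/
theorem main2 (h_MG : S_MG) (h_CG : S_CG) (h_BK : S_BK) (h_OM : S_OM)
    (h_REC : S_REC) (h_SETL : S_SETL) (h_NRV : S_NRV) (h_WID : S_WID) (n : ℕ) (hn : 1 ≤ n)
    (lam : ℝ) (hlam : 1 ≤ lam) :
    ∃ C : ℝ, 0 < C ∧ ∀ (X : Type) [MetricSpace X] [CompactSpace X] [MeasurableSpace X]
      [BorelSpace X] (r : ℝ), 0 < r → GeodSpace X → UniqGeod X r →
      (∀ p : X, Push X p lam) → CovDim X n → ¬ Dom X n →
      (∀ w : ℝ, 0 < w → Cov X w n → ClosedGeod X (C * w)) ∧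
      (μH[(n : ℝ)] (univ : Set X) ≠ ⊤ →
        ClosedGeod X (C * (μH[(n : ℝ)] (univ : Set X)).toReal ^ (1 / (n : ℝ)))) := by
  obtain ⟨c, hc, hcov⟩ := h_WID n
  have hcW := cW_pos hlam n
  have hn0 : (n : ℝ) ≠ 0 := by
    have : n ≠ 0 := by omega
    exact_mod_cast this
  have hκ : (0 : ℝ) < (2 / c) ^ (1 / (n : ℝ)) := by positivity
  refine ⟨cW lam n * (1 + (2 / c) ^ (1 / (n : ℝ))), by positivity, ?_⟩
  intro X _ _ _ _ r hr hX hU hP hdim hess
  have hwid : ∀ w : ℝ, 0 < w → Cov X w n → ClosedGeod X (cW lam n * w) := by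
    intro w hw hcw
    by_contra hno
    apply hess
    obtain ⟨m, hm⟩ := h_MG X r hr hX hU
    have hLC := lc_of_no h_MG h_CG h_BK h_OM h_REC h_SETL X r lam hr hX hU hlam hP
      (2 * n + 1) (by omega) hno
    have h2 := sg_ge_one hlam (q := 2 * n + 2) (by omega)
    have h1 := sg_ge_one hlam (q := 2 * n + 1) (by omega)
    refine h_NRV X (r / 2) m hm (by linarith) n _ _ w ?_ hLC hdim hw hcw ?_
    · change 1 ≤ 4 * sg lam (2 * n + 2)
      linarith
    · rw [le_div_iff₀ (by positivity)]
      refine le_of_eq ?_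
      simp only [cW]
      ring
  refine ⟨fun w hw hcw => (hwid w hw hcw).mono ?_, fun hfin => ?_⟩
  · rw [mul_assoc]
    refine mul_le_mul_of_nonneg_left ?_ hcW.le
    nlinarith
  · set V := (μH[(n : ℝ)] (univ : Set X)).toReal with hV
    have hV0 : 0 ≤ V := ENNReal.toReal_nonneg
    have hVe : μH[(n : ℝ)] (univ : Set X) = ENNReal.ofReal V := (ENNReal.ofReal_toReal hfin).symm
    have hcovw : ∀ w : ℝ, 0 < w → V < c * w ^ n → Cov X w n := by
      intro w hw hVw
      refine hcov X w hw fun x => ?_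
      calc μH[(n : ℝ)] (Metric.closedBall x w) ≤ μH[(n : ℝ)] (univ : Set X) :=
            measure_mono (subset_univ _)
        _ = ENNReal.ofReal V := hVe
        _ < ENNReal.ofReal (c * w ^ n) := (ENNReal.ofReal_lt_ofReal_iff (by positivity)).2 hVw
    rcases hV0.eq_or_lt with hV0 | hVpos
    · exfalso
      apply hess
      obtain ⟨m, hm⟩ := h_MG X r hr hX hU
      have hr2 : 0 < r / 2 := by linarith
      have h1 := cE_ge_one (Lam := 1) le_rfl (2 * n + 1)
      have hw : 0 < r / 2 / (2 * cE 1 (2 * n + 1)) := by positivity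
      refine h_NRV X (r / 2) m hm hr2 n (r / 2) 1 (r / 2 / (2 * cE 1 (2 * n + 1))) le_rfl
        (lc_trivial hm _) hdim hw (hcovw _ hw ?_) ?_
      · rw [← hV0]
        positivity
      · refine le_of_eq ?_
        field_simp
    · have hw : 0 < (2 * V / c) ^ (1 / (n : ℝ)) := by positivity
      have hwn : ((2 * V / c) ^ (1 / (n : ℝ))) ^ n = 2 * V / c := by
        rw [← Real.rpow_natCast, ← Real.rpow_mul (by positivity), one_div,
          inv_mul_cancel₀ hn0, Real.rpow_one]
      have hCG := hwid _ hw (hcovw _ hw (by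
        rw [hwn, mul_div_cancel₀ _ hc.ne']
        linarith))
      refine hCG.mono ?_
      have h3 : (2 * V / c) ^ (1 / (n : ℝ)) = (2 / c) ^ (1 / (n : ℝ)) * V ^ (1 / (n : ℝ)) := by
        rw [← Real.mul_rpow (by positivity) hV0]
        congr 1
        ring
      rw [h3, mul_assoc]
      refine mul_le_mul_of_nonneg_left ?_ hcW.le
      have h4 : 0 ≤ V ^ (1 / (n : ℝ)) := by positivity
      nlinarith

/-- maps with a small category with respect to short paths -/
theorem cat_version (h_MG : S_MG) (h_CG : S_CG) (h_BK : S_BK) (h_OM : S_OM)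
    (h_REC : S_REC) (X : Type) [MetricSpace X] [CompactSpace X] [Nontrivial X] (p : X)
    (r lam : ℝ) (hr : 0 < r)
    (hX : GeodSpace X) (hU : UniqGeod X r) (hP : Push X p lam) (K : Type) [MetricSpace K]
    (f : C(K, X)) (m : ℕ) (b : ℝ) (hb : 0 < b) (U : ℕ → Set K) (ρ : ℕ → K → ℝ → X)
    (hUo : ∀ j, IsOpen (U j)) (hUc : ∀ k, ∃ j ≤ m, k ∈ U j)
    (hρc : ∀ j, ContinuousOn (ρ j) (U j)) (hρ : ∀ j, ∀ k ∈ U j, ρ j k ∈ Pa p b ∧ ρ j k b = f k)
    (hf : ¬ f.Nullhomotopic) :
    ClosedGeod X (2 * b * ∑ i ∈ Finset.range m, lam ^ i) := by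
  classical
  by_contra hno
  apply hf
  have hlam : 1 ≤ lam := hP.one_le
  obtain ⟨g, hg⟩ := h_MG X r hr hX hU
  have hOm : ∀ j, j < m → OmC p (al lam b j + b) (lam * (al lam b j + b)) := by
    intro j hj
    obtain ⟨ha1, ha2⟩ := al_bounds hlam hb.le hj
    exact omC_of_no h_CG h_BK h_OM hg (half_pos hr) hlam hP hno (by linarith) ha2
  -- the weights
  set t : ℕ → K → ℝ := fun j k => if U j = univ then 1 else Metric.infDist k (U j)ᶜ with ht
  have htpos : ∀ j k, 0 < t j k ↔ k ∈ U j := by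
    intro j k
    simp only [ht]
    split_ifs with h
    · simp [h]
    · have hne : (U j)ᶜ.Nonempty := by
        rw [nonempty_compl]
        exact h
      have hcl : IsClosed (U j)ᶜ := (hUo j).isClosed_compl
      constructor
      · intro h1
        by_contra h2
        rw [Metric.infDist_zero_of_mem h2] at h1
        exact lt_irrefl _ h1
      · intro h1
        rw [← hcl.notMem_iff_infDist_pos hne]
        exact fun h2 => h2 h1
  have hdata : Data p b m f ∅ t ρ := by
    refine ⟨?_, ?_, ?_, ?_, ?_, ?_⟩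
    · intro j
      simp only [ht]
      split_ifs
      · exact continuous_const
      · exact Metric.continuous_infDist_pt _
    · intro j k
      simp only [ht]
      split_ifs
      · exact zero_le_one
      · exact Metric.infDist_nonneg
    · intro k
      obtain ⟨j, hj, hk⟩ := hUc k
      exact ⟨j, hj, (htpos j k).2 hk⟩
    · intro j
      have : {k | 0 < t j k} = U j := by
        ext k
        exact htpos j k
      rw [this]
      exact hρc j
    · intro j k hk
      exact hρ j k ((htpos j k).1 hk)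
    · intro j k hk
      exact hk.elim
  obtain ⟨Γ, hΓ1, hΓ2, _⟩ := h_REC X K p lam b m hlam hb.le hOm f ∅ t ρ hdata
  refine ⟨p, ContinuousMap.Homotopic.symm ⟨⟨⟨fun z => Γ z.2 (z.1.1 * al lam b m), ?_⟩, ?_, ?_⟩⟩⟩
  · exact eval_cont (F := fun z : unitInterval × K => Γ z.2) (hΓ1.comp continuous_snd)
      (fun z => (hΓ2 z.2).1.1) ((continuous_subtype_val.comp continuous_fst).mul continuous_const)
  · intro k
    change Γ k (((0 : unitInterval) : ℝ) * al lam b m) = p
    rw [Set.Icc.coe_zero, zero_mul]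
    exact (hΓ2 k).1.2.1 0 le_rfl
  · intro k
    change Γ k (((1 : unitInterval) : ℝ) * al lam b m) = f k
    rw [Set.Icc.coe_one, one_mul]
    exact (hΓ2 k).2

end Pool.Agent.R203.PP
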