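import Pool.Agent.Y489.GE.Stm

/-!
# Lipschitz point pushing

Definition, transport of polygons, and criteria.
-/

set_option autoImplicit false

open Set Topology

noncomputable section

namespace Pool.Agent.R203.PP

open Pool.Agent.Y489.GE

/-- `lam`-Lipschitz point pushing at `p`: if a point is moved continuously away from `p` (with
parameters in a compact metric space `K`, during the time interval `[1/2, 1]`), then it can be
brought back to `p` by a continuous family of `lam`-Lipschitz maps from `X` to `X` which starts with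
the identity. -/
def Push (X : Type) [MetricSpace X] (p : X) (lam : ℝ) : Prop :=
  ∀ (K : Type) [MetricSpace K] [CompactSpace K] (b : K → ℝ → X),
    Continuous (fun z : K × ℝ => b z.1 z.2) → (∀ k s, s ≤ 1 / 2 → b k s = p) →
    (∀ k s, 1 ≤ s → b k s = b k 1) →
    ∃ φ : K → ℝ → X → X, Continuous (fun z : (K × ℝ) × X => φ z.1.1 z.1.2 z.2) ∧
      (∀ k s x y, dist (φ k s x) (φ k s y) ≤ lam * dist x y) ∧
      (∀ k s, φ k s (b k s) = p) ∧ ∀ k s, s ≤ 0 → ∀ x, φ k s x = x

theorem Push.one_le {X : Type} [MetricSpace X] {p : X} {lam : ℝ} (h : Push X p lam)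
    [Nontrivial X] : 1 ≤ lam := by
  obtain ⟨x, y, hxy⟩ := exists_pair_ne X
  obtain ⟨φ, -, h2, -, h4⟩ := h Unit (fun _ _ => p) continuous_const (fun _ _ _ => rfl)
    (fun _ _ _ => rfl)
  have h5 := h2 () 0 x y
  rw [h4 () 0 le_rfl, h4 () 0 le_rfl] at h5
  have h6 : 0 < dist x y := dist_pos.2 hxy
  nlinarith

theorem isClosed_Polp (X : Type) [MetricSpace X] (N : ℕ) (δ : ℝ) (p : X) :
    IsClosed (Polp X N δ p) := by
  have h1 : Polp X N δ p = (⋂ i : ZMod N, {x : ZMod N → X | dist (x i) (x (i + 1)) ≤ δ}) ∩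
      {x | x 0 = p} := by
    ext x
    simp [Polp, Pol]
  rw [h1]
  refine IsClosed.inter (isClosed_iInter fun i => ?_) ?_
  · exact isClosed_le ((continuous_apply i).dist (continuous_apply (i + 1))) continuous_const
  · exact isClosed_eq (continuous_apply 0) continuous_const

/-- transport of the contraction to the first vertex `p` -/
theorem tr_push (X : Type) [MetricSpace X] [CompactSpace X] (p : X) (lam : ℝ)
    (hP : Push X p lam) (hlam : 0 ≤ lam) (N : ℕ) [NeZero N] (δ : ℝ) (hPol : PolC X N δ) :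
    PolpC X N δ (lam * δ) p := by
  obtain ⟨c, H, hH, hHT, hH0', hH1', hHZ'⟩ := hPol
  have hH0 : ∀ (y : ↥(Pol X N δ)) (s : ℝ), s ≤ 0 → H y s = y.1 := hH0'
  have hH1 : ∀ (y : ↥(Pol X N δ)) (s : ℝ), 1 ≤ s → H y s = fun _ => c y := hH1'
  have hHZ : ∀ y : ↥(Pol X N δ), (∀ i, y.1 i = y.1 0) → ∀ s, H y s = y.1 := hHZ'
  have hcomp : CompactSpace ↥(Polp X N δ p) :=
    isCompact_iff_compactSpace.1 (isClosed_Polp X N δ p).isCompact
  obtain ⟨u, hu⟩ : ∃ u : ↥(Polp X N δ p) → ↥(Pol X N δ), ∀ x, u x = ⟨x.1, x.2.1⟩ :=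
    ⟨_, fun _ => rfl⟩
  have hu1 : ∀ x, (u x).1 = x.1 := fun x => by rw [hu]
  have hucont : Continuous u := by
    rw [continuous_induced_rng]
    have : (Subtype.val ∘ u) = Subtype.val := funext fun x => hu1 x
    rw [this]
    exact continuous_subtype_val
  have hHu : Continuous (fun z : ↥(Polp X N δ p) × ℝ => H (u z.1) (2 * z.2 - 1)) :=
    hH.comp ((hucont.comp continuous_fst).prodMk (by fun_prop))
  obtain ⟨φ, hφ, hφL, hφp, hφ0⟩ := hP ↥(Polp X N δ p)
    (fun x s => H (u x) (2 * s - 1) 0) ((continuous_apply (0 : ZMod N)).comp hHu)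
    (fun x s hs => by
      rw [hH0 _ _ (by linarith), hu1]
      exact x.2.2)
    (fun x s hs => by
      rw [hH1 _ _ (by linarith), hH1 _ _ (by norm_num)])
  refine ⟨fun x s i => φ x s (H (u x) (2 * s - 1) i), ?_, ?_, ?_, ?_, ?_⟩
  · refine continuous_pi fun i => ?_
    exact hφ.comp (continuous_id.prodMk ((continuous_apply i).comp hHu))
  · intro x s
    constructor
    · intro i
      refine (hφL _ _ _ _).trans ?_
      exact mul_le_mul_of_nonneg_left (hHT (u x) _ i) hlam
    · exact hφp x s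
  · intro x s hs
    funext i
    dsimp only
    rw [hφ0 x s hs, hH0 _ _ (by linarith), hu1]
  · intro x s hs
    funext i
    dsimp only
    have h1 := hφp x s
    rw [hH1 _ _ (by linarith)] at h1 ⊢
    exact h1
  · intro x hx s
    have h1 : ∀ s, H (u x) s = x.1 := by
      intro s
      rw [← hu1 x]
      refine hHZ (u x) ?_ s
      intro i
      rw [hu1]
      rw [hx i, hx 0]
    have h2 := hφp x s
    rw [h1, hx 0] at h2
    funext i
    dsimp only
    rw [h1 (2 * s - 1), hx i, h2]

/-! ### criteria -/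

/-- Lipschitz homogeneous spaces -/
theorem Push.of_group (h_LIFT : S_LIFT) {X G : Type} [MetricSpace X] [Group G]
    [TopologicalSpace G] [IsTopologicalGroup G] [MulAction G X] [ContinuousSMul G X] {p : X}
    {lam : ℝ} (hG : ∀ (g : G) (x y : X), dist (g • x) (g • y) ≤ lam * dist x y)
    (hs : LocSec X G p) : Push X p lam := by
  intro K _ _ b hb hb0 hb1
  obtain ⟨g, hg, hg0, -, hgp, -⟩ := h_LIFT X G p lam hG hs K b hb
    (fun k s hs => hb0 k s (by linarith)) hb1
  refine ⟨fun k s x => (g k s)⁻¹ • x, ?_, fun k s x y => hG _ _ _, ?_, ?_⟩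
  · exact (hg.comp continuous_fst).inv.smul continuous_snd
  · intro k s
    dsimp only
    rw [← hgp k s, inv_smul_smul]
  · intro k s hs x
    dsimp only
    rw [hg0 k s hs, inv_one, one_smul]

/-- spaces with a division -/
theorem Push.of_division {X : Type} [MetricSpace X] {p : X} {lam : ℝ} (ψ : X → X → X)
    (hψ : Continuous (fun z : X × X => ψ z.1 z.2)) (h1 : ∀ x, ψ x x = p) (h2 : ∀ y, ψ p y = y)
    (h3 : ∀ x y z, dist (ψ x y) (ψ x z) ≤ lam * dist y z) : Push X p lam := by
  intro K _ _ b hb hb0 hb1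
  refine ⟨fun k s x => ψ (b k s) x, ?_, fun k s x y => h3 _ _ _, fun k s => h1 _, ?_⟩
  · exact hψ.comp ((hb.comp continuous_fst).prodMk continuous_snd)
  · intro k s hs x
    dsimp only
    rw [hb0 k s (by linarith), h2]

/-- homotopy retracts -/
theorem Push.retract {X Y : Type} [MetricSpace X] [MetricSpace Y] {p : X} {y₀ : Y}
    {lam Lam α β : ℝ} (hY : Push Y y₀ lam) (ι : X → Y) (ρ : Y → X) (h : ℝ → X → X)
    (hι : Continuous ι) (hρ : Continuous ρ) (hh : Continuous (fun z : ℝ × X => h z.1 z.2))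
    (hιL : ∀ x y, dist (ι x) (ι y) ≤ α * dist x y) (hρL : ∀ x y, dist (ρ x) (ρ y) ≤ β * dist x y)
    (hlam : 0 ≤ lam) (hβ : 0 ≤ β) (hLam : β * (lam * α) ≤ Lam)
    (hhL : ∀ u x y, dist (h u x) (h u y) ≤ Lam * dist x y)
    (hιp : ι p = y₀) (hhp : ∀ u, h u p = p) (hh0 : ∀ u ≤ 0, ∀ x, h u x = x)
    (hh1 : ∀ u, 1 ≤ u → ∀ x, h u x = ρ (ι x)) : Push X p Lam := by
  intro K _ _ b hb hb0 hb1
  obtain ⟨φ, hφ, hφL, hφp, hφ0⟩ := hY K (fun k s => ι (b k s)) (hι.comp hb)
    (fun k s hs => by rw [hb0 k s hs, hιp]) (fun k s hs => by rw [hb1 k s hs])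
  have hρp : ρ y₀ = p := by
    rw [← hιp, ← hh1 1 le_rfl, hhp]
  refine ⟨fun k s x => if s ≤ 1 / 4 then h (4 * s) x else
    ρ (φ k (min (2 * s - 1 / 2) s) (ι x)), ?_, ?_, ?_, ?_⟩
  · refine Continuous.if_le ?_ ?_ (continuous_snd.comp continuous_fst) continuous_const ?_
    · exact hh.comp ((continuous_const.mul (continuous_snd.comp continuous_fst)).prodMk
        continuous_snd)
    · have h1 : Continuous fun z : (K × ℝ) × X =>
          (((z.1.1, min (2 * z.1.2 - 1 / 2) z.1.2), ι z.2) : (K × ℝ) × Y) := by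
        refine Continuous.prodMk (Continuous.prodMk (continuous_fst.comp continuous_fst) ?_)
          (hι.comp continuous_snd)
        exact ((continuous_const.mul (continuous_snd.comp continuous_fst)).sub
          continuous_const).min (continuous_snd.comp continuous_fst)
      exact hρ.comp (hφ.comp h1)
    · rintro ⟨⟨k, s⟩, x⟩ hs
      dsimp only at hs ⊢
      rw [hh1 _ (by rw [hs]; norm_num), hφ0 _ _ (by rw [hs]; norm_num)]
  · intro k s x y
    dsimp only
    split_ifs with hs
    · exact hhL _ _ _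
    · refine (hρL _ _).trans ?_
      have h1 := hφL k (min (2 * s - 1 / 2) s) (ι x) (ι y)
      have h2 : dist (φ k (min (2 * s - 1 / 2) s) (ι x)) (φ k (min (2 * s - 1 / 2) s) (ι y)) ≤
          lam * (α * dist x y) := h1.trans (mul_le_mul_of_nonneg_left (hιL x y) hlam)
      calc β * _ ≤ β * (lam * (α * dist x y)) := mul_le_mul_of_nonneg_left h2 hβ
        _ = β * (lam * α) * dist x y := by ring
        _ ≤ Lam * dist x y := mul_le_mul_of_nonneg_right hLam dist_nonneg
  · intro k s
    dsimp only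
    split_ifs with hs
    · rw [hb0 k s (by linarith), hhp]
    · rcases le_total s (1 / 2) with h1 | h1
      · have h2 := hφp k (min (2 * s - 1 / 2) s)
        rw [hb0 _ _ ((min_le_right _ _).trans h1), hιp] at h2
        rw [hb0 k s h1, hιp, h2, hρp]
      · rw [min_eq_right (by linarith), hφp, hρp]
  · intro k s hs x
    dsimp only
    rw [if_pos (by linarith), hh0 _ (by linarith)]

end Pool.Agent.R203.PP
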